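import Mathlib
import Pool.Agent.H39.QS1

namespace Pool.Agent.Results.MP_dd23d5_gt.BelowP

open Cardinal
open Pool.Agent.H39

theorem result :
    ∀ (P : Type) [PartialOrder P] [TopologicalSpace P] [Topology.IsScott P Set.univ],
      (∀ d : Set P, d.Nonempty → DirectedOn (· ≤ ·) d → ∃ x, IsLUB d x) →
      LocallyCompactSpace P →
      (∀ (x : P) (U : Set P), IsOpen U → x ∈ U →
          ∃ B : Set P, #B < QS1.pNum ∧ B ⊆ U ∧ x ∈ interior (upperClosure B : Set P)) →
      QuasiSober P ∧ T0Space P :=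
  fun _ _ _ _ hd _ h => ⟨QS1.sober hd (QS1.quasicont QS1.cc_of_lc h), QS1.t0⟩

end Pool.Agent.Results.MP_dd23d5_gt.BelowP
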