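import Mathlib
import Pool.Agent.H39.QS2

namespace Pool.Agent.Results.MP_dd23d5_gt.LocSep

open Pool.Agent.H39

theorem result :
    ∀ (P : Type) [PartialOrder P] [TopologicalSpace P] [Topology.IsScott P Set.univ],
      (∀ d : Set P, d.Nonempty → DirectedOn (· ≤ ·) d → ∃ x, IsLUB d x) →
      LocallyCompactSpace P →
      (∀ x : P, ∃ O : Set P, IsOpen O ∧ x ∈ O ∧ ∃ b : ℕ → Set P, (∀ i, IsOpen (b i)) ∧
          ∀ y ∈ O, ∀ z ∈ O, ¬ y ≤ z → ∃ i, y ∈ b i ∧ z ∉ b i) →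
      QuasiSober P ∧ T0Space P :=
  fun _ _ _ _ hd _ h => ⟨QS2.sober h hd, QS1.t0⟩

end Pool.Agent.Results.MP_dd23d5_gt.LocSep
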